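import Pool.Agent.W250.RS.Stm2

/-!
# Expected number of values by second moments, all difference sets
-/

set_option autoImplicit false

open Finset

namespace Pool.Agent.W514.RS2

open Pool.Agent.W250.RS

lemma two_card_le {ι β : Type} [Fintype ι] [DecidableEq ι] [DecidableEq β] (p : ι → Prop)
    [DecidablePred p] (h : ι → β) :
    2 * (univ.filter p).card ≤ 2 * ((univ.filter p).image h).card +
      ((univ : Finset (ι × ι)).filter
        (fun q => q.1 ≠ q.2 ∧ (p q.1 ∧ p q.2 ∧ h q.2 = h q.1))).card := by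
  set T := univ.filter p with hT
  set P := (univ : Finset (ι × ι)).filter
    (fun q => q.1 ≠ q.2 ∧ (p q.1 ∧ p q.2 ∧ h q.2 = h q.1)) with hP
  have h1 : T.card = ∑ v ∈ T.image h, (T.filter (fun c => h c = v)).card :=
    Finset.card_eq_sum_card_image h T
  have h2 : P.card = ∑ v ∈ T.image h, (P.filter (fun q => h q.1 = v)).card := by
    apply Finset.card_eq_sum_card_fiberwise
    intro q hq
    rw [hP, Finset.mem_coe, Finset.mem_filter] at hq
    exact Finset.mem_coe.2 (Finset.mem_image_of_mem h (by rw [hT]; simp [hq.2.2.1]))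
  have h3 : ∀ v ∈ T.image h, 2 * (T.filter (fun c => h c = v)).card ≤
      2 + (P.filter (fun q => h q.1 = v)).card := by
    intro v hv
    have e1 : P.filter (fun q => h q.1 = v) = (T.filter (fun c => h c = v)).offDiag := by
      ext ⟨a, b⟩
      simp only [hP, hT, mem_filter, mem_univ, true_and, mem_offDiag]
      constructor
      · rintro ⟨⟨h1, h2, h3, h4⟩, h5⟩
        exact ⟨⟨h2, h5⟩, ⟨h3, h4.trans h5⟩, h1⟩
      · rintro ⟨⟨h1, h2⟩, ⟨h3, h4⟩, h5⟩
        exact ⟨⟨h5, h1, h3, h4.trans h2.symm⟩, h2⟩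
    rw [e1, Finset.offDiag_card]
    have e2 : 0 < (T.filter (fun c => h c = v)).card := by
      rw [Finset.card_pos]
      obtain ⟨c, hc, hcv⟩ := Finset.mem_image.1 hv
      exact ⟨c, Finset.mem_filter.2 ⟨hc, hcv⟩⟩
    obtain ⟨z, hz⟩ : ∃ z, (T.filter (fun c => h c = v)).card = z + 1 := ⟨_, (Nat.succ_pred_eq_of_pos e2).symm⟩
    rw [hz]
    have e3 : (z + 1) * (z + 1) - (z + 1) = z * (z + 1) := by
      rw [show (z + 1) * (z + 1) = z * (z + 1) + (z + 1) by ring, Nat.add_sub_cancel]
    rw [e3]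
    have e4 : z ≤ z * z := Nat.le_mul_self z
    nlinarith
  have h4 := Finset.sum_le_sum h3
  rw [← Finset.mul_sum, ← h1, Finset.sum_add_distrib, ← h2, Finset.sum_const, smul_eq_mul] at h4
  linarith

/-- the difference set of two index vectors -/
def df {k m : ℕ} (q : (Fin k → Fin m) × (Fin k → Fin m)) : Finset (Fin k) :=
  univ.filter (fun l => q.1 l ≠ q.2 l)

lemma mem_df {k m : ℕ} (q : (Fin k → Fin m) × (Fin k → Fin m)) (l : Fin k) :
    l ∈ df q ↔ q.1 l ≠ q.2 l := by
  simp [df]

lemma card_df (k m : ℕ) (J : Finset (Fin k)) :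
    ((univ : Finset ((Fin k → Fin m) × (Fin k → Fin m))).filter
      (fun q => df q = J)).card ≤ m ^ k * m ^ J.card := by
  have h1 : ((univ : Finset ((Fin k → Fin m) × (Fin k → Fin m))).filter
      (fun q => df q = J)).card ≤
      (univ : Finset ((Fin k → Fin m) × ({j : Fin k // j ∈ J} → Fin m))).card := by
    apply Finset.card_le_card_of_injOn (fun q => (q.1, fun j => q.2 j.1))
    · intro q _; exact Finset.mem_coe.2 (Finset.mem_univ _)
    · intro q hq q' hq' he
      rw [Finset.mem_coe, Finset.mem_filter] at hq hq'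
      have he' : ((q.1, fun j : {j : Fin k // j ∈ J} => q.2 j.1) :
        (Fin k → Fin m) × ({j : Fin k // j ∈ J} → Fin m)) = (q'.1, fun j => q'.2 j.1) := he
      obtain ⟨e1, e2⟩ := Prod.mk.inj he'
      refine Prod.ext e1 (funext fun j => ?_)
      by_cases hj : j ∈ J
      · exact congrFun e2 ⟨j, hj⟩
      · have a1 : q.1 j = q.2 j := by
          by_contra hcon
          exact hj (hq.2 ▸ (mem_df q j).2 hcon)
        have a2 : q'.1 j = q'.2 j := by
          by_contra hcon
          exact hj (hq'.2 ▸ (mem_df q' j).2 hcon)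
        rw [← a1, ← a2, e1]
  refine h1.trans (le_of_eq ?_)
  rw [Finset.card_univ, Fintype.card_prod, Fintype.card_fun, Fintype.card_fun, Fintype.card_fin,
    Fintype.card_fin]
  congr 2
  simp

theorem t_EX2 (h1 : S_C1) (h4 : S_C4) : S_EX2 := by
  intro α β _ _ X k m N K G g hX hk hkm hG hK hA
  have hn : 0 < X.card := hX.card_pos
  rcases Nat.eq_zero_or_pos m with hm | hm
  · subst hm
    have : ((0 : ℕ) : ℝ) ^ k = 0 := by
      rw [Nat.cast_zero]; exact zero_pow (by omega)
    rw [this, zero_mul, zero_mul]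
    exact mul_nonneg (by positivity) (Finset.sum_nonneg fun _ _ => Nat.cast_nonneg _)
  -- the index tuples
  let blk : Fin k × Fin m → Fin N := fun q => Fin.castLE hkm (finProdFinEquiv q)
  have hblk : Function.Injective blk := fun q q' h =>
    finProdFinEquiv.injective (Fin.castLE_injective hkm h)
  let idx : (Fin k → Fin m) → Fin k → Fin N := fun b l => blk (l, b l)
  have hidx : ∀ b, Function.Injective (idx b) := fun b l l' h => congrArg Prod.fst (hblk h)
  have hne : ∀ b c i j, idx b i = idx c j → i = j ∧ b i = c j := fun b c i j h =>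
    ⟨congrArg Prod.fst (hblk h), congrArg Prod.snd (hblk h)⟩
  -- second moments
  let E : (Fin k → Fin m) × (Fin k → Fin m) → ℕ := fun q =>
    ((tup X N).filter (fun f => f ∘ idx q.1 ∈ G ∧ f ∘ idx q.2 ∈ G ∧
      g (f ∘ idx q.2) = g (f ∘ idx q.1))).card
  let W : ℕ := G.card * X.card ^ N
  have hpt : ∀ f ∈ tup X N, 2 * (univ.filter (fun b => f ∘ idx b ∈ G)).card ≤
      2 * ((univ : Finset (Fin k → Fin N)).image (fun ι => g (f ∘ ι))).card +
      ((univ : Finset ((Fin k → Fin m) × (Fin k → Fin m))).filter (fun q => q.1 ≠ q.2 ∧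
        (f ∘ idx q.1 ∈ G ∧ f ∘ idx q.2 ∈ G ∧ g (f ∘ idx q.2) = g (f ∘ idx q.1)))).card := by
    intro f _
    have e1 := two_card_le (fun b => f ∘ idx b ∈ G) (fun b => g (f ∘ idx b))
    have e2 : ((univ.filter (fun b => f ∘ idx b ∈ G)).image (fun b => g (f ∘ idx b))).card ≤
        ((univ : Finset (Fin k → Fin N)).image (fun ι => g (f ∘ ι))).card := by
      apply Finset.card_le_card
      intro v hv
      obtain ⟨b, _, hb⟩ := Finset.mem_image.1 hv
      exact Finset.mem_image.2 ⟨idx b, Finset.mem_univ _, hb⟩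
    omega
  have hsum := Finset.sum_le_sum hpt
  rw [Finset.sum_add_distrib, ← Finset.mul_sum, ← Finset.mul_sum] at hsum
  -- the first moment
  have hY : (∑ f ∈ tup X N, (univ.filter (fun b => f ∘ idx b ∈ G)).card) * X.card ^ k =
      m ^ k * W := by
    have e1 : ∑ f ∈ tup X N, (univ.filter (fun b => f ∘ idx b ∈ G)).card =
        ∑ b : Fin k → Fin m, ((tup X N).filter (fun f => f ∘ idx b ∈ G)).card := by
      simp only [Finset.card_filter]
      exact Finset.sum_comm
    rw [e1, Finset.sum_mul, Finset.sum_congr rfl fun b _ => h1 α X k N G (idx b) hG (hidx b),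
      Finset.sum_const, Finset.card_univ, Fintype.card_fun, Fintype.card_fin, Fintype.card_fin,
      smul_eq_mul]
  -- the second moment
  let D := (univ : Finset ((Fin k → Fin m) × (Fin k → Fin m))).filter (fun q => q.1 ≠ q.2)
  have hC : ∑ f ∈ tup X N, ((univ : Finset ((Fin k → Fin m) × (Fin k → Fin m))).filter
      (fun q => q.1 ≠ q.2 ∧ (f ∘ idx q.1 ∈ G ∧ f ∘ idx q.2 ∈ G ∧
        g (f ∘ idx q.2) = g (f ∘ idx q.1)))).card =
      ∑ q ∈ D, E q := by
    have e1 : ∀ f ∈ tup X N, ((univ : Finset ((Fin k → Fin m) × (Fin k → Fin m))).filter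
      (fun q => q.1 ≠ q.2 ∧ (f ∘ idx q.1 ∈ G ∧ f ∘ idx q.2 ∈ G ∧
        g (f ∘ idx q.2) = g (f ∘ idx q.1)))).card =
        ∑ q ∈ (univ : Finset ((Fin k → Fin m) × (Fin k → Fin m))).filter (fun q => q.1 ≠ q.2),
        if (f ∘ idx q.1 ∈ G ∧ f ∘ idx q.2 ∈ G ∧ g (f ∘ idx q.2) = g (f ∘ idx q.1)) then 1 else 0 := by
      intro f _
      rw [← Finset.filter_filter, Finset.card_filter]
    rw [Finset.sum_congr rfl e1, Finset.sum_comm]
    refine Finset.sum_congr rfl fun q _ => ?_
    show _ = ((tup X N).filter (fun f => f ∘ idx q.1 ∈ G ∧ f ∘ idx q.2 ∈ G ∧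
      g (f ∘ idx q.2) = g (f ∘ idx q.1))).card
    rw [Finset.card_filter]
  have hnk : 0 < X.card ^ k := Nat.pow_pos hn
  have hmk : 0 < m ^ k := Nat.pow_pos hm
  -- one pair
  have hE : ∀ J : Finset (Fin k), J.Nonempty → ∀ q : (Fin k → Fin m) × (Fin k → Fin m),
      df q = J → m ^ J.card * (2 ^ k * X.card ^ k * E q) ≤ W := by
    intro J hJ q hq
    have e1 := h4 α β X k N (K J.card) G g (idx q.1) (idx q.2) J hG (hK J hJ) (hidx _) (hidx _)
      (fun i j h => by
        obtain ⟨h5, h6⟩ := hne _ _ _ _ h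
        subst h5
        refine ⟨rfl, fun hi => ?_⟩
        rw [← hq, mem_df] at hi
        exact hi h6)
      (fun i hi => by
        have h6 : q.1 i = q.2 i := by
          by_contra hcon
          exact hi (hq ▸ (mem_df q i).2 hcon)
        show blk (i, q.1 i) = blk (i, q.2 i)
        rw [h6])
    have e2 : E q * X.card ^ (k + J.card) ≤ G.card * K J.card * X.card ^ N := e1
    have hJk : J.card ≤ k := by
      have := Finset.card_le_univ J
      rwa [Fintype.card_fin] at this
    have e3 := hA J.card hJ.card_pos hJk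
    have hnJ : 0 < X.card ^ J.card := Nat.pow_pos hn
    rw [pow_add] at e2
    refine Nat.le_of_mul_le_mul_left ?_ hnJ
    calc X.card ^ J.card * (m ^ J.card * (2 ^ k * X.card ^ k * E q)) =
        2 ^ k * m ^ J.card * (E q * (X.card ^ k * X.card ^ J.card)) := by ring
      _ ≤ 2 ^ k * m ^ J.card * (G.card * K J.card * X.card ^ N) := Nat.mul_le_mul_left _ e2
      _ = (2 ^ k * m ^ J.card * K J.card) * W := by
        show _ = (2 ^ k * m ^ J.card * K J.card) * (G.card * X.card ^ N); ring
      _ ≤ X.card ^ J.card * W := Nat.mul_le_mul_right _ e3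
  -- one difference set
  have hS : ∀ J : Finset (Fin k), 2 ^ k * (X.card ^ k * ∑ q ∈ D.filter (fun q => df q = J), E q) ≤
      m ^ k * W := by
    intro J
    rcases J.eq_empty_or_nonempty with hJ | hJ
    · have : D.filter (fun q => df q = J) = ∅ := by
        rw [Finset.filter_eq_empty_iff]
        intro q hq he
        have hq' : q.1 ≠ q.2 := (Finset.mem_filter.1 hq).2
        apply hq'
        funext l
        by_contra hcon
        have := (mem_df q l).2 hcon
        rw [he, hJ] at this
        exact absurd this (Finset.notMem_empty l)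
      rw [this, Finset.sum_empty, mul_zero, mul_zero]
      exact Nat.zero_le _
    · have hmJ : 0 < m ^ J.card := Nat.pow_pos hm
      refine Nat.le_of_mul_le_mul_left ?_ hmJ
      calc m ^ J.card * (2 ^ k * (X.card ^ k * ∑ q ∈ D.filter (fun q => df q = J), E q)) =
          ∑ q ∈ D.filter (fun q => df q = J), m ^ J.card * (2 ^ k * X.card ^ k * E q) := by
            rw [← Finset.mul_sum, ← Finset.mul_sum]; ring
        _ ≤ ∑ _q ∈ D.filter (fun q => df q = J), W :=
          Finset.sum_le_sum fun q hq => hE J hJ q (Finset.mem_filter.1 hq).2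
        _ = (D.filter (fun q => df q = J)).card * W := by rw [Finset.sum_const, smul_eq_mul]
        _ ≤ (m ^ k * m ^ J.card) * W := by
          refine Nat.mul_le_mul_right _ ((Finset.card_le_card ?_).trans (card_df k m J))
          intro q hq
          exact Finset.mem_filter.2 ⟨Finset.mem_univ _, (Finset.mem_filter.1 hq).2⟩
        _ = m ^ J.card * (m ^ k * W) := by ring
  have hSD : X.card ^ k * ∑ q ∈ D, E q ≤ m ^ k * W := by
    have h2k : 0 < 2 ^ k := Nat.pow_pos (by norm_num)
    refine Nat.le_of_mul_le_mul_left ?_ h2k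
    have e1 : ∑ q ∈ D, E q = ∑ J : Finset (Fin k), ∑ q ∈ D.filter (fun q => df q = J), E q :=
      (Finset.sum_fiberwise D df E).symm
    calc 2 ^ k * (X.card ^ k * ∑ q ∈ D, E q) =
        ∑ J : Finset (Fin k), 2 ^ k * (X.card ^ k * ∑ q ∈ D.filter (fun q => df q = J), E q) := by
          rw [e1, ← Finset.mul_sum, ← Finset.mul_sum]
      _ ≤ ∑ _J : Finset (Fin k), m ^ k * W := Finset.sum_le_sum fun J _ => hS J
      _ = 2 ^ k * (m ^ k * W) := by
        rw [Finset.sum_const, Finset.card_univ, Fintype.card_finset, Fintype.card_fin, smul_eq_mul]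
  have hfin : m ^ k * W ≤ 2 * X.card ^ k *
      ∑ f ∈ tup X N, ((univ : Finset (Fin k → Fin N)).image (fun ι => g (f ∘ ι))).card := by
    rw [hC] at hsum
    have e1 := Nat.mul_le_mul_left (X.card ^ k) hsum
    have e3 : X.card ^ k * (2 * ∑ f ∈ tup X N, (univ.filter (fun b => f ∘ idx b ∈ G)).card) =
        2 * (m ^ k * W) := by rw [← hY]; ring
    rw [e3] at e1
    nlinarith
  have hcast := (Nat.cast_le (α := ℝ)).2 hfin
  push_cast at hcast
  have hW : ((W : ℕ) : ℝ) = (G.card : ℝ) * (X.card : ℝ) ^ N := by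
    show ((G.card * X.card ^ N : ℕ) : ℝ) = _
    push_cast; ring
  rw [hW, ← mul_assoc] at hcast
  exact hcast

end Pool.Agent.W514.RS2
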